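import Pool.Agent.Helper60_AEU.Stmt

/-!
AEU Part III, KTL: the Laplace transform of the heat kernel.
-/

set_option autoImplicit false

namespace Pool.Agent.AEU.H7

open MeasureTheory Complex Filter Topology Set Pool.Agent.H62T Pool.Agent.H38KL Pool.Agent.H60K

theorem ktl : KtlStatement := by
  intro κ z hκ hz
  have hr : 0 < ‖z‖ := norm_pos_iff.mpr hz
  set r := ‖z‖ with hrdef
  set c := r / (2 * κ) with hc
  have hcpos : 0 < c := by positivity
  have himg : (fun u : ℝ => c * Real.exp u) '' Set.univ = Set.Ioi 0 := by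
    ext t
    simp only [Set.image_univ, Set.mem_range, Set.mem_Ioi]
    constructor
    · rintro ⟨u, rfl⟩
      positivity
    · intro ht
      refine ⟨Real.log (t / c), ?_⟩
      rw [Real.exp_log (by positivity)]
      field_simp
  have hder : ∀ u ∈ (Set.univ : Set ℝ), HasDerivWithinAt (fun u : ℝ => c * Real.exp u)
      (c * Real.exp u) Set.univ u := fun u _ =>
    ((Real.hasDerivAt_exp u).const_mul c).hasDerivWithinAt
  have hinj : Set.InjOn (fun u : ℝ => c * Real.exp u) Set.univ := by
    intro a _ b _ h
    exact Real.exp_injective (mul_left_cancel₀ hcpos.ne' h)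
  have key : ∀ u : ℝ, |c * Real.exp u| • (Real.exp (-(κ ^ 2 * (c * Real.exp u)))
      * G (c * Real.exp u) z) = 1 / (4 * Real.pi) * Real.exp (-(κ * r * Real.cosh u)) := by
    intro u
    have he : 0 < Real.exp u := Real.exp_pos u
    rw [abs_of_pos (by positivity), smul_eq_mul, G]
    rw [show c * Real.exp u * (Real.exp (-(κ ^ 2 * (c * Real.exp u)))
      * (Real.exp (-‖z‖ ^ 2 / (4 * (c * Real.exp u))) / (4 * Real.pi * (c * Real.exp u))))
      = 1 / (4 * Real.pi) * (Real.exp (-(κ ^ 2 * (c * Real.exp u)))
        * Real.exp (-‖z‖ ^ 2 / (4 * (c * Real.exp u)))) by field_simp]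
    rw [← Real.exp_add]
    congr 2
    rw [← hrdef, Real.cosh_eq, Real.exp_neg, hc]
    field_simp
    ring
  have hint : Integrable (fun u : ℝ => 1 / (4 * Real.pi) * Real.exp (-(κ * r * Real.cosh u))) :=
    (intg_exp_cosh (a := κ * r) (by positivity)).const_mul _
  have hI : IntegrableOn (fun t : ℝ => Real.exp (-(κ ^ 2 * t)) * G t z) (Set.Ioi 0) := by
    rw [← himg, integrableOn_image_iff_integrableOn_abs_deriv_smul MeasurableSet.univ hder hinj]
    rw [integrableOn_univ]
    exact hint.congr (Eventually.of_forall fun u => (key u).symm)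
  refine ⟨hI, ?_⟩
  rw [← himg, integral_image_eq_integral_abs_deriv_smul MeasurableSet.univ hder hinj]
  rw [setIntegral_univ]
  rw [integral_congr_ae (Eventually.of_forall key), integral_const_mul]
  have h2 := integral_comp_abs (f := fun v : ℝ => Real.exp (-(κ * r * Real.cosh v)))
  simp only [Real.cosh_abs] at h2
  rw [h2, Kit]
  simp only [zero_mul, Real.cos_zero, mul_one]
  field_simp
  ring

end Pool.Agent.AEU.H7
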