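import Pool.Agent.Helper60_AEU.Stmt
import Pool.Agent.Helper38_KL.HKa

/-!
AEU Part III, LDB: Gaussian bound for chains of blocks.
-/

set_option autoImplicit false

namespace Pool.Agent.AEU.H7

open MeasureTheory Complex Filter Topology Pool.Agent.H62T Pool.Agent.H38KL Pool.Agent.H60K
open scoped ENNReal NNReal

lemma meas_G (s : ℝ) : Measurable (G s) := by
  unfold G
  fun_prop

/-- integration over the first coordinate -/
lemma lintegral_cons (m : ℕ) (Φ : (Fin (m + 1) → ℂ) → ℝ≥0∞) (hΦ : Measurable Φ) :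
    ∫⁻ z : Fin (m + 1) → ℂ, Φ z = ∫⁻ z0 : ℂ, ∫⁻ z : Fin m → ℂ, Φ (Fin.cons z0 z) := by
  have e := (MeasureTheory.volume_preserving_piFinSuccAbove (fun _ : Fin (m + 1) => ℂ) 0).symm
    (MeasurableEquiv.piFinSuccAbove (fun _ : Fin (m + 1) => ℂ) 0)
  rw [← e.lintegral_comp_emb (MeasurableEquiv.measurableEmbedding _) Φ]
  rw [Measure.volume_eq_prod, lintegral_prod]
  · refine lintegral_congr fun z0 => lintegral_congr fun z => ?_
    congr 1
    simp only [MeasurableEquiv.piFinSuccAbove_symm_apply, Fin.insertNthEquiv, Equiv.coe_fn_mk]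
    exact Fin.insertNth_zero' z0 z
  · exact (hΦ.comp (MeasurableEquiv.measurable _)).aemeasurable

lemma meas_cons (m : ℕ) (x : ℂ) (j : Fin (m + 1)) :
    Measurable (fun z : Fin m → ℂ => (Fin.cons x z : Fin (m + 1) → ℂ) j) := by
  refine Fin.cases ?_ (fun i => ?_) j
  · simp
  · simp only [Fin.cons_succ]; exact measurable_pi_apply i

lemma meas_snoc (m : ℕ) (y : ℂ) (j : Fin (m + 1)) :
    Measurable (fun z : Fin m → ℂ => (Fin.snoc z y : Fin (m + 1) → ℂ) j) := by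
  refine Fin.lastCases ?_ (fun i => ?_) j
  · simp
  · simp only [Fin.snoc_castSucc]; exact measurable_pi_apply i

/-- composition of Gaussian kernels and isometries along a path -/
lemma chain_path : ∀ (m : ℕ) (σ : Fin (m + 1) → ℝ) (f : Fin (m + 1) → ℂ ≃ᵢ ℂ), (∀ j, 0 < σ j) →
    ∃ F : ℂ ≃ᵢ ℂ, ∀ x y : ℂ, ∫⁻ z : Fin m → ℂ, ∏ j : Fin (m + 1), ENNReal.ofReal
      (G (σ j) (f j ((Fin.cons x z : Fin (m + 1) → ℂ) j) - (Fin.snoc z y : Fin (m + 1) → ℂ) j))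
      = ENNReal.ofReal (G (∑ j, σ j) (F x - y)) := by
  intro m
  induction m with
  | zero =>
    intro σ f hσ
    refine ⟨f 0, fun x y => ?_⟩
    rw [lintegral_unique, volume_pi, Measure.pi_empty_univ]
    simp [Fin.snoc]
  | succ m ih =>
    intro σ f hσ
    obtain ⟨F, hF⟩ := ih (fun j => σ j.succ) (fun j => f j.succ) (fun j => hσ _)
    refine ⟨(f 0).trans F, fun x y => ?_⟩
    rw [lintegral_cons m]
    · have h1 : ∀ z0 : ℂ, ∫⁻ z : Fin m → ℂ, ∏ j : Fin (m + 1 + 1), ENNReal.ofReal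
          (G (σ j) (f j ((Fin.cons x (Fin.cons z0 z : Fin (m + 1) → ℂ) : Fin (m + 2) → ℂ) j)
            - (Fin.snoc (Fin.cons z0 z : Fin (m + 1) → ℂ) y : Fin (m + 2) → ℂ) j))
          = ENNReal.ofReal (G (σ 0) (f 0 x - z0)
            * G (∑ j : Fin (m + 1), σ j.succ) (z0 - F.symm y)) := by
        intro z0
        have h2 : ∀ z : Fin m → ℂ, ∏ j : Fin (m + 1 + 1), ENNReal.ofReal
          (G (σ j) (f j ((Fin.cons x (Fin.cons z0 z : Fin (m + 1) → ℂ) : Fin (m + 2) → ℂ) j)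
            - (Fin.snoc (Fin.cons z0 z : Fin (m + 1) → ℂ) y : Fin (m + 2) → ℂ) j))
          = ENNReal.ofReal (G (σ 0) (f 0 x - z0)) * ∏ j : Fin (m + 1), ENNReal.ofReal
            (G (σ j.succ) (f j.succ ((Fin.cons z0 z : Fin (m + 1) → ℂ) j)
              - (Fin.snoc z y : Fin (m + 1) → ℂ) j)) := by
          intro z
          rw [Fin.prod_univ_succ, ← Fin.cons_snoc_eq_snoc_cons]
          simp only [Fin.cons_zero, Fin.cons_succ]
        simp_rw [h2]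
        rw [lintegral_const_mul, hF z0 y, ← ENNReal.ofReal_mul (G_pos (hσ 0) _).le]
        · congr 2
          unfold G
          have h3 : ‖F z0 - y‖ = ‖z0 - F.symm y‖ := by
            rw [← dist_eq_norm, ← dist_eq_norm]
            conv_lhs => rw [← F.apply_symm_apply y]
            exact F.dist_eq _ _
          rw [h3]
        · refine Finset.measurable_prod _ fun j _ => ?_
          exact ((meas_G _).comp (((f j.succ).continuous.measurable.comp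
            (meas_cons m z0 j)).sub (meas_snoc m y j))).ennreal_ofReal
      simp_rw [h1]
      have hs : 0 < ∑ j : Fin (m + 1), σ j.succ :=
        Finset.sum_pos (fun j _ => hσ _) Finset.univ_nonempty
      have hc := G_conv_gen (hσ 0) hs (f 0 x) (F.symm y)
      rw [← ofReal_integral_eq_lintegral_ofReal hc.1
        (Eventually.of_forall fun z => mul_nonneg (G_pos (hσ 0) _).le (G_pos hs _).le), hc.2,
        ← Fin.sum_univ_succ]
      congr 1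
      unfold G
      have h3 : ‖((f 0).trans F) x - y‖ = ‖f 0 x - F.symm y‖ := by
        rw [← dist_eq_norm, ← dist_eq_norm]
        conv_lhs => rw [← F.apply_symm_apply y]
        exact F.dist_eq _ _
      rw [h3]
    · refine Finset.measurable_prod _ fun j _ => ?_
      exact ((meas_G _).comp (((f j).continuous.measurable.comp
        (meas_cons (m + 1) x j)).sub (meas_snoc (m + 1) y j))).ennreal_ofReal

lemma cyc_snoc (m : ℕ) (x : ℂ) (z : Fin m → ℂ) (j : Fin (m + 1)) :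
    (Fin.cons x z : Fin (m + 1) → ℂ) (j + 1) = (Fin.snoc z x : Fin (m + 1) → ℂ) j := by
  refine Fin.lastCases ?_ (fun i => ?_) j
  · rw [Fin.last_add_one, Fin.cons_zero, Fin.snoc_last]
  · rw [Fin.coeSucc_eq_succ, Fin.cons_succ, Fin.snoc_castSucc]

/-- the same for loops, with a weight at the point number `0` -/
lemma chain_loop (m : ℕ) (σ : Fin (m + 1) → ℝ) (f : Fin (m + 1) → ℂ ≃ᵢ ℂ) (hσ : ∀ j, 0 < σ j)
    (w : ℂ → ℝ≥0∞) (hw : Measurable w) :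
    ∫⁻ x : Fin (m + 1) → ℂ, w (x 0) * ∏ j : Fin (m + 1), ENNReal.ofReal
      (G (σ j) (f j (x j) - x (j + 1))) ≤
    ENNReal.ofReal (1 / (4 * Real.pi * ∑ j, σ j)) * ∫⁻ x, w x := by
  obtain ⟨F, hF⟩ := chain_path m σ f hσ
  have hs : 0 < ∑ j, σ j := Finset.sum_pos (fun j _ => hσ _) Finset.univ_nonempty
  rw [lintegral_cons m]
  · have h1 : ∀ x0 : ℂ, ∫⁻ z : Fin m → ℂ, w ((Fin.cons x0 z : Fin (m + 1) → ℂ) 0) *
        ∏ j : Fin (m + 1), ENNReal.ofReal (G (σ j) (f j ((Fin.cons x0 z : Fin (m + 1) → ℂ) j)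
          - (Fin.cons x0 z : Fin (m + 1) → ℂ) (j + 1)))
        = w x0 * ENNReal.ofReal (G (∑ j, σ j) (F x0 - x0)) := by
      intro x0
      simp_rw [cyc_snoc, Fin.cons_zero]
      rw [lintegral_const_mul, hF]
      refine Finset.measurable_prod _ fun j _ => ?_
      exact ((meas_G _).comp (((f j).continuous.measurable.comp
        (meas_cons m x0 j)).sub (meas_snoc m x0 j))).ennreal_ofReal
    simp_rw [h1]
    rw [← lintegral_const_mul _ hw]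
    refine lintegral_mono fun x0 => ?_
    rw [mul_comm]
    gcongr
    unfold G
    gcongr
    rw [Real.exp_le_one_iff]
    have : 0 ≤ ‖F x0 - x0‖ ^ 2 / (4 * ∑ j, σ j) := by positivity
    rw [neg_div]
    linarith
  · refine (hw.comp (measurable_pi_apply 0)).mul (Finset.measurable_prod _ fun j _ => ?_)
    exact ((meas_G _).comp (((f j).continuous.measurable.comp
      (measurable_pi_apply j)).sub (measurable_pi_apply (j + 1)))).ennreal_ofReal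

lemma sed {ι : Type*} [Fintype ι] (B τ : ι → ℝ) (hτ : ∀ j, 0 < τ j) :
    (∑ j, B j) ^ 2 / (4 * ∑ j, τ j) ≤ ∑ j, B j ^ 2 / (4 * τ j) := by
  have h := Finset.sq_sum_div_le_sum_sq_div Finset.univ B (g := fun j => 4 * τ j)
    (fun j _ => by have := hτ j; positivity)
  rwa [← Finset.mul_sum] at h

lemma exp_prod {ι : Type*} [Fintype ι] (B τ : ι → ℝ) :
    ∏ j, Real.exp (-(B j) ^ 2 / (4 * τ j)) / (4 * Real.pi * τ j) =
      Real.exp (-∑ j, B j ^ 2 / (4 * τ j)) * ∏ j, (1 / (4 * Real.pi * τ j)) := by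
  rw [← Finset.sum_neg_distrib, Real.exp_sum, ← Finset.prod_mul_distrib]
  refine Finset.prod_congr rfl fun j _ => ?_
  rw [mul_one_div, neg_div]

lemma pt_exponent {ι : Type*} [Fintype ι] (τ B : ι → ℝ) (δ l R ε e c r : ℝ)
    (hι : 0 < ∑ j, τ j) (hτ : ∀ j, 0 < τ j) (hδ : 0 < δ) (hl : 0 < l) (hR : 0 < R)
    (he0 : 0 < e) (he1 : e ≤ 1) (heε : e ≤ ε) (hc0 : 0 < c) (hc1 : c ≤ e / 16)
    (hc2 : c ≤ e * l ^ 2 / 8) (hτδ : ∀ j, τ j * l ^ 2 ≤ δ ^ 2 * ∑ i, τ i) (hB0 : ∀ j, 0 ≤ B j)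
    (hr : 0 ≤ r) (hSl : (∀ j, B j < δ) → l ≤ ∑ j, B j) (hSR : r ≤ R * (1 + ∑ j, B j)) :
    -∑ j, B j ^ 2 / (4 * τ j) ≤ -((1 - ε) * l ^ 2 / (4 * ∑ j, τ j))
      + -(c / (2 * R ^ 2 * ∑ j, τ j)) * r ^ 2 + -(e / 4 * ∑ j, B j ^ 2 / (4 * τ j)) := by
  have hX1 := sed B τ hτ
  have hs0 : 0 ≤ ∑ j, B j := Finset.sum_nonneg fun j _ => hB0 j
  have hX0 : 0 ≤ ∑ j, B j ^ 2 / (4 * τ j) :=
    Finset.sum_nonneg fun j _ => by have := hτ j; positivity
  have hX2 : l ^ 2 / (4 * ∑ j, τ j) ≤ ∑ j, B j ^ 2 / (4 * τ j) := by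
    by_cases hsh : ∀ j, B j < δ
    · have := hSl hsh
      refine le_trans ?_ hX1
      gcongr
    · push Not at hsh
      obtain ⟨j, hj⟩ := hsh
      have h1 : B j ^ 2 / (4 * τ j) ≤ ∑ j, B j ^ 2 / (4 * τ j) :=
        Finset.single_le_sum (f := fun j => B j ^ 2 / (4 * τ j))
          (fun j _ => by have := hτ j; positivity) (Finset.mem_univ j)
      refine le_trans ?_ h1
      have h2 := hτδ j
      have hτj := hτ j
      rw [div_le_div_iff₀ (by positivity) (by positivity)]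
      have h3 : δ ^ 2 ≤ B j ^ 2 := by gcongr
      have h4 := mul_le_mul_of_nonneg_right h3 hι.le
      linarith
  generalize (∑ j, B j ^ 2 / (4 * τ j)) = X at *
  generalize (∑ j, τ j) = t at *
  generalize (∑ j, B j) = s at *
  have hX3 : r ^ 2 / (2 * R ^ 2) - 1 ≤ s ^ 2 := by
    have h2 : r ^ 2 ≤ (R * (1 + s)) ^ 2 := by gcongr
    rw [sub_le_iff_le_add, div_le_iff₀ (by positivity)]
    have h3 : (1 + s) ^ 2 ≤ 2 * (s ^ 2 + 1) := by nlinarith [sq_nonneg (1 - s)]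
    calc r ^ 2 ≤ R ^ 2 * (1 + s) ^ 2 := by rw [← mul_pow]; exact h2
      _ ≤ R ^ 2 * (2 * (s ^ 2 + 1)) := by gcongr
      _ = _ := by ring
  have h1 : (1 - e / 2) * (l ^ 2 / (4 * t)) ≤ (1 - e / 2) * X := by
    gcongr
    linarith
  have h2 : c / t * s ^ 2 ≤ e / 4 * X := by
    have : c / t * s ^ 2 ≤ e / 16 / t * s ^ 2 := by gcongr
    have h3 : e / 16 / t * s ^ 2 = e / 4 * (s ^ 2 / (4 * t)) := by field_simp; ring
    have h4 : e / 4 * (s ^ 2 / (4 * t)) ≤ e / 4 * X := by gcongr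
    linarith
  have h3 : c / t * (r ^ 2 / (2 * R ^ 2) - 1) ≤ c / t * s ^ 2 := by gcongr
  have h4 : c / t * (r ^ 2 / (2 * R ^ 2) - 1) = c / (2 * R ^ 2 * t) * r ^ 2 - c / t := by
    field_simp
  have h5 : c / t ≤ e / 2 * (l ^ 2 / (4 * t)) := by
    rw [div_le_iff₀ hι]
    have : e / 2 * (l ^ 2 / (4 * t)) * t = e * l ^ 2 / 8 := by field_simp; ring
    linarith
  have h6 : (1 - ε) * l ^ 2 / (4 * t) ≤ (1 - e) * (l ^ 2 / (4 * t)) := by
    rw [mul_div_assoc]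
    gcongr
  have h7 : (1 - e) * (l ^ 2 / (4 * t)) = (1 - e / 2) * (l ^ 2 / (4 * t))
    - e / 2 * (l ^ 2 / (4 * t)) := by ring
  linarith

lemma prod_G {m : ℕ} (τ B : Fin (m + 1) → ℝ) (v : Fin (m + 1) → ℂ) (e : ℝ)
    (he0 : 0 < e) (hτ : ∀ j, 0 < τ j) (hv : ∀ j, ‖v j‖ ≤ B j) :
    Real.exp (-(e / 4 * ∑ j, B j ^ 2 / (4 * τ j))) * ∏ j, (1 / (4 * Real.pi * τ j)) ≤
      (4 / e) ^ (m + 1) * ∏ j, G (4 * τ j / e) (v j) := by
  rw [Finset.mul_sum, ← Finset.sum_neg_distrib, Real.exp_sum, ← Finset.prod_mul_distrib]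
  have h0 : (4 / e) ^ (m + 1) = ∏ _j : Fin (m + 1), (4 / e) := by
    rw [Finset.prod_const, Finset.card_univ, Fintype.card_fin]
  rw [h0, ← Finset.prod_mul_distrib]
  refine Finset.prod_le_prod (fun j _ => ?_) fun j _ => ?_
  · have := hτ j
    positivity
  · have hτj := hτ j
    unfold G
    have h1 : 4 / e * (Real.exp (-‖v j‖ ^ 2 / (4 * (4 * τ j / e))) /
        (4 * Real.pi * (4 * τ j / e))) = Real.exp (-‖v j‖ ^ 2 / (4 * (4 * τ j / e))) *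
        (1 / (4 * Real.pi * τ j)) := by
      field_simp
    rw [h1]
    gcongr
    have h2 : ‖v j‖ ^ 2 ≤ B j ^ 2 := by
      have := hv j
      gcongr
    have h3 : e / 4 * (B j ^ 2 / (4 * τ j)) = B j ^ 2 / (4 * (4 * τ j / e)) := by
      field_simp
    rw [h3, neg_div]
    gcongr

lemma pt_bound {m : ℕ} (τ B : Fin (m + 1) → ℝ) (v : Fin (m + 1) → ℂ) (δ l R ε e c r : ℝ)
    (hι : 0 < ∑ j, τ j) (hτ : ∀ j, 0 < τ j) (hδ : 0 < δ) (hl : 0 < l) (hR : 0 < R)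
    (he0 : 0 < e) (he1 : e ≤ 1) (heε : e ≤ ε) (hc0 : 0 < c) (hc1 : c ≤ e / 16)
    (hc2 : c ≤ e * l ^ 2 / 8) (hτδ : ∀ j, τ j * l ^ 2 ≤ δ ^ 2 * ∑ i, τ i)
    (hv : ∀ j, ‖v j‖ ≤ B j)
    (hr : 0 ≤ r) (hSl : (∀ j, B j < δ) → l ≤ ∑ j, B j) (hSR : r ≤ R * (1 + ∑ j, B j)) :
    ∏ j, Real.exp (-(B j) ^ 2 / (4 * τ j)) / (4 * Real.pi * τ j) ≤
      (Real.exp (-((1 - ε) * l ^ 2 / (4 * ∑ j, τ j))) * (4 / e) ^ (m + 1)) *
        (Real.exp (-(c / (2 * R ^ 2 * ∑ j, τ j)) * r ^ 2) * ∏ j, G (4 * τ j / e) (v j)) := by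
  have hB0 : ∀ j, 0 ≤ B j := fun j => (norm_nonneg _).trans (hv j)
  have h1 := pt_exponent τ B δ l R ε e c r hι hτ hδ hl hR he0 he1 heε hc0 hc1 hc2 hτδ hB0 hr
    hSl hSR
  have h2 := prod_G τ B v e he0 hτ hv
  rw [exp_prod]
  have h3 : 0 ≤ ∏ j, (1 / (4 * Real.pi * τ j)) :=
    Finset.prod_nonneg fun j _ => by have := hτ j; positivity
  calc Real.exp (-∑ j, B j ^ 2 / (4 * τ j)) * ∏ j, (1 / (4 * Real.pi * τ j))
      ≤ Real.exp (-((1 - ε) * l ^ 2 / (4 * ∑ j, τ j))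
      + -(c / (2 * R ^ 2 * ∑ j, τ j)) * r ^ 2 + -(e / 4 * ∑ j, B j ^ 2 / (4 * τ j)))
          * ∏ j, (1 / (4 * Real.pi * τ j)) :=
        mul_le_mul_of_nonneg_right (Real.exp_le_exp.mpr h1) h3
    _ = (Real.exp (-((1 - ε) * l ^ 2 / (4 * ∑ j, τ j)))
          * Real.exp (-(c / (2 * R ^ 2 * ∑ j, τ j)) * r ^ 2)) *
          (Real.exp (-(e / 4 * ∑ j, B j ^ 2 / (4 * τ j))) * ∏ j, (1 / (4 * Real.pi * τ j))) := by
        rw [Real.exp_add, Real.exp_add]; ring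
    _ ≤ (Real.exp (-((1 - ε) * l ^ 2 / (4 * ∑ j, τ j)))
          * Real.exp (-(c / (2 * R ^ 2 * ∑ j, τ j)) * r ^ 2)) *
          ((4 / e) ^ (m + 1) * ∏ j, G (4 * τ j / e) (v j)) :=
        mul_le_mul_of_nonneg_left h2 (by positivity)
    _ = _ := by ring

lemma fin_ineq (k : ℕ) (e c R E t : ℝ) (he : 0 < e) (hc : 0 < c) (ht : 0 < t)
    (hE : 0 < E) :
    E * (4 / e) ^ k * (1 / (4 * Real.pi * (4 * t / e)) * (Real.pi / (c / (2 * R ^ 2 * t))))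
      ≤ ((4 / e) ^ k * (e * R ^ 2 / (8 * c))) * (1 + t) ^ 1 / t * E := by
  have h1 : E * (4 / e) ^ k * (1 / (4 * Real.pi * (4 * t / e)) *
      (Real.pi / (c / (2 * R ^ 2 * t)))) = (4 / e) ^ k * (e * R ^ 2 / (8 * c)) * E := by
    field_simp
    ring
  rw [h1]
  have h2 : 1 ≤ (1 + t) ^ 1 / t := by
    rw [pow_one, one_le_div ht]; linarith
  have h3 : 0 ≤ (4 / e) ^ k * (e * R ^ 2 / (8 * c)) * E := by positivity
  have h4 := le_mul_of_one_le_right h3 h2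
  refine h4.trans (le_of_eq ?_)
  ring

lemma weight_int (a : ℝ) (ha : 0 < a) :
    ∫⁻ z : ℂ, ENNReal.ofReal (Real.exp (-a * ‖z‖ ^ 2)) = ENNReal.ofReal (Real.pi / a) := by
  have h1 := H41.integrable_gauss a ha 0
  have h2 := H41.integral_gauss a ha 0
  simp only [sub_zero] at h1 h2
  rw [← ofReal_integral_eq_lintegral_ofReal h1 (Eventually.of_forall fun z => (Real.exp_pos _).le),
    h2]

lemma chain_fin (m : ℕ) (σ : Fin (m + 1) → ℝ) (f : Fin (m + 1) → ℂ ≃ᵢ ℂ) (hσ : ∀ j, 0 < σ j)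
    (E a : ℝ) (hE : 0 ≤ E) (ha : 0 < a) (S : Set (Fin (m + 1) → ℂ)) (hS : MeasurableSet S)
    (P : (Fin (m + 1) → ℂ) → ℝ)
    (hP : ∀ x ∈ S, P x ≤ E * (Real.exp (-a * ‖x 0‖ ^ 2) * ∏ j, G (σ j) (f j (x j) - x (j + 1)))) :
    ∫⁻ x in S, ENNReal.ofReal (P x) ≤
      ENNReal.ofReal (E * (1 / (4 * Real.pi * ∑ j, σ j) * (Real.pi / a))) := by
  have hw : Measurable (fun z : ℂ => ENNReal.ofReal (Real.exp (-a * ‖z‖ ^ 2))) := by
    fun_prop
  have hs : 0 < ∑ j, σ j := Finset.sum_pos (fun j _ => hσ _) Finset.univ_nonempty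
  have h1 : ∫⁻ x in S, ENNReal.ofReal (P x) ≤ ∫⁻ x in S, ENNReal.ofReal E *
      (ENNReal.ofReal (Real.exp (-a * ‖x 0‖ ^ 2))
        * ∏ j, ENNReal.ofReal (G (σ j) (f j (x j) - x (j + 1)))) := by
    refine setLIntegral_mono' hS fun x hx => ?_
    rw [← ENNReal.ofReal_prod_of_nonneg (fun j _ => (G_pos (hσ j) _).le),
      ← ENNReal.ofReal_mul (Real.exp_pos _).le, ← ENNReal.ofReal_mul hE]
    exact ENNReal.ofReal_le_ofReal (hP x hx)
  have h2 : ∫⁻ x in S, ENNReal.ofReal E *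
      (ENNReal.ofReal (Real.exp (-a * ‖x 0‖ ^ 2))
        * ∏ j, ENNReal.ofReal (G (σ j) (f j (x j) - x (j + 1)))) ≤ ENNReal.ofReal E *
      ∫⁻ x : Fin (m + 1) → ℂ, (ENNReal.ofReal (Real.exp (-a * ‖x 0‖ ^ 2))
        * ∏ j, ENNReal.ofReal (G (σ j) (f j (x j) - x (j + 1)))) := by
    rw [← lintegral_const_mul' _ _ ENNReal.ofReal_ne_top]
    exact setLIntegral_le_lintegral _ _
  have h3 := chain_loop m σ f hσ _ hw
  rw [weight_int a ha, ← ENNReal.ofReal_mul (by positivity)] at h3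
  refine (h1.trans h2).trans ?_
  rw [ENNReal.ofReal_mul hE]
  exact mul_le_mul_right h3 _

lemma ldb_aux (m : ℕ) (f : Fin (m + 1) → ℂ ≃ᵢ ℂ) (δ l R ε e c : ℝ) (hδ : 0 < δ) (hl : 0 < l)
    (hR : 0 < R) (he0 : 0 < e) (he1 : e ≤ 1) (heε : e ≤ ε) (hc0 : 0 < c) (hc1 : c ≤ e / 16)
    (hc2 : c ≤ e * l ^ 2 / 8) (τ : Fin (m + 1) → ℝ) (b : Fin (m + 1) → ℂ → ℂ → ℝ)
    (S : Set (Fin (m + 1) → ℂ)) (hτ : ∀ j, 0 < τ j)
    (hτδ : ∀ j, τ j * l ^ 2 ≤ δ ^ 2 * ∑ i, τ i) (hS : MeasurableSet S)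
    (hfb : ∀ j x y, ‖f j x - y‖ ≤ b j x y)
    (hSl : ∀ x ∈ S, (∀ j, b j (x j) (x (j + 1)) < δ) → l ≤ ∑ j, b j (x j) (x (j + 1)))
    (hSR : ∀ x ∈ S, ‖x 0‖ ≤ R * (1 + ∑ j, b j (x j) (x (j + 1)))) :
    ∫⁻ x in S, ENNReal.ofReal (∏ j, Real.exp (-(b j (x j) (x (j + 1))) ^ 2 / (4 * τ j))
          / (4 * Real.pi * τ j))
        ≤ ENNReal.ofReal (((4 / e) ^ (m + 1) * (e * R ^ 2 / (8 * c))) * (1 + ∑ i, τ i) ^ 1
          / (∑ i, τ i) * Real.exp (-((1 - ε) * l ^ 2 / (4 * ∑ i, τ i)))) := by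
  have ht0 : 0 < ∑ i, τ i := Finset.sum_pos (fun j _ => hτ _) Finset.univ_nonempty
  have hσ0 : ∀ j, 0 < 4 * τ j / e := fun j => by have := hτ j; positivity
  have hσt : ∑ j, 4 * τ j / e = 4 * (∑ i, τ i) / e := by
    rw [Finset.mul_sum, Finset.sum_div]
  have ha0 : 0 < c / (2 * R ^ 2 * ∑ i, τ i) := by positivity
  have h1 := chain_fin m (fun j => 4 * τ j / e) f hσ0
    (Real.exp (-((1 - ε) * l ^ 2 / (4 * ∑ j, τ j))) * (4 / e) ^ (m + 1))
    (c / (2 * R ^ 2 * ∑ i, τ i)) (by positivity) ha0 S hS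
    (fun x => ∏ j, Real.exp (-(b j (x j) (x (j + 1))) ^ 2 / (4 * τ j)) / (4 * Real.pi * τ j))
    (fun x hx => pt_bound τ (fun j => b j (x j) (x (j + 1))) (fun j => f j (x j) - x (j + 1))
      δ l R ε e c ‖x 0‖ ht0 hτ hδ hl hR he0 he1 heε hc0 hc1 hc2 hτδ (fun j => hfb j _ _)
      (norm_nonneg _) (hSl x hx) (hSR x hx))
  refine h1.trans (ENNReal.ofReal_le_ofReal ?_)
  rw [hσt]
  exact fin_ineq (m + 1) e c R _ _ he0 hc0 ht0 (Real.exp_pos _)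

theorem ldb : LdbStatement := by
  intro n _ f δ l R ε hδ hl hR hε
  obtain ⟨m, rfl⟩ : ∃ m, n = m + 1 := ⟨n - 1, by have := NeZero.ne n; omega⟩
  have he0 : 0 < min ε 1 := lt_min hε one_pos
  refine ⟨(4 / min ε 1) ^ (m + 1) * (min ε 1 * R ^ 2 /
    (8 * min (min ε 1 / 16) (min ε 1 * l ^ 2 / 8))), 1, ?_⟩
  intro τ b S hτ hτδ hS hb hfb hSl hSR
  exact ldb_aux m f δ l R ε (min ε 1) (min (min ε 1 / 16) (min ε 1 * l ^ 2 / 8)) hδ hl hR he0
    (min_le_right _ _) (min_le_left _ _) (lt_min (by positivity) (by positivity))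
    (min_le_left _ _) (min_le_right _ _) τ b S hτ hτδ hS hfb hSl hSR

end Pool.Agent.AEU.H7
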